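import Pool.Agent.Y817.WK.Fin
import Pool.Agent.Y246.WK.Arith
import Pool.Agent.Y171.WK.Derive
import Pool.Agent.Y986.WK.Pde
import Pool.Agent.Y986.WK.Tri

/-!
# MP_f5ceca_al: the word problem in varieties of associative algebras containing `W_K`

Let `K` be a field of characteristic zero and let `V` be a variety of associative `K`-algebras which
contains the variety `W_K` defined by the identities `x[y,z][t,u]v = 0` and `x[y,z,t]u = 0`.  Then the
word problem is undecidable in `V`.  More precisely, there is one finite set of generators and one
finite set of relations with integral coefficients such that, for all such `K` and `V`, the algebra
they present in `V` has undecidable word problem.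

Proof (helpers 817, 246, 171, 986).  A c.e. set `S` which is not computable is defined by a system of
quadratic equations in natural numbers (the negative solution of Hilbert's tenth problem).  The
solutions are translated into the polynomial solutions of a system of linear differential equations
with the Euler operators `X_k d/dX_k`; such a system is encoded by finitely many relations between a
row `p`, multiplications `x_j`, operators `e_k` with `[x_j, e_k] = - [j = k] x_k z`, and columns `q`,
so that `p x_n ^ c z q_0 = 0` iff `c` belongs to `S`, both in the free-est algebra and in a triangular
algebra satisfying the two identities.
-/

set_option autoImplicit false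

namespace Pool.Agent.Results.MP_f5ceca_al.UndecidableAboveW

open Pool.Agent.Y817.WK

/-- There are a natural number `k` and a finite set `R` of noncommutative polynomials with integral
coefficients in `k` letters such that, for every field `K` of characteristic zero, every coding `ν` of
the elements of `K` by natural numbers and every set `Id` of identities whose variety contains `W_K`,
the word problem of the algebra presented by `R` in this variety is undecidable. -/
theorem result :
    ∃ (k : ℕ) (R : List (List (ℤ × Fin k × List (Fin k)))),
      ∀ (K : Type) [Field K] [CharZero K] (ν : ℕ → K), Function.Surjective ν →
        ∀ Id : Set (List (K × ℕ × List ℕ)), ContainsW K Id →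
          ¬ DecidableWP ν Id (R.map fun r => r.map fun t => ((t.1 : K), t.2)) :=
  main Pool.Agent.Y246.WK.t Pool.Agent.Y171.WK.t (model Pool.Agent.Y986.WK.Tri.t Pool.Agent.Y986.WK.t)

end Pool.Agent.Results.MP_f5ceca_al.UndecidableAboveW
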